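import Pool.Agent.Lib.MP_b9b22b_co.Lin.Base

/-!
EMB: every coloured complete graph on `k` vertices embeds in the cyclotomic colouring.
-/

set_option autoImplicit false

namespace Pool.Agent.Lib.MP_b9b22b_co.Lin.H89

open Finset

/-- The indicator of `χ a = ω ^ m` as a character sum. -/
theorem indicator_sum {P : ℕ} [Fact P.Prime] {e : ℕ} (he : 0 < e) (χ : MulChar (ZMod P) ℂ)
    (ω : ℂ) (hχ : orderOf χ = e) (hω : IsPrimitiveRoot ω e) (m : ℕ) (a : ZMod P) :
    ∑ l ∈ range e, ((ω ^ m)⁻¹) ^ l * (χ ^ l) a = if χ a = ω ^ m then (e : ℂ) else 0 := by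
  have hω0 : ω ≠ 0 := hω.ne_zero he.ne'
  have hωm : ω ^ m ≠ 0 := pow_ne_zero _ hω0
  by_cases ha : a = 0
  · subst ha
    have h0 : χ 0 = 0 := MulChar.map_zero χ
    rw [if_neg]
    · apply Finset.sum_eq_zero
      intro l _
      rw [MulChar.map_zero, mul_zero]
    · rw [h0]
      exact fun h => hωm h.symm
  · have hu : IsUnit a := isUnit_iff_ne_zero.2 ha
    obtain ⟨u, rfl⟩ := hu
    have hpow : ∀ l : ℕ, (χ ^ l) (u : ZMod P) = (χ (u : ZMod P)) ^ l := fun l =>
      MulChar.pow_apply_coe χ l u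
    have hz : ∑ l ∈ range e, ((ω ^ m)⁻¹) ^ l * (χ ^ l) (u : ZMod P)
        = ∑ l ∈ range e, ((ω ^ m)⁻¹ * χ (u : ZMod P)) ^ l := by
      refine Finset.sum_congr rfl fun l _ => ?_
      rw [hpow, mul_pow]
    rw [hz]
    have hχe : χ (u : ZMod P) ^ e = 1 := by
      rw [← hpow, ← hχ, pow_orderOf_eq_one, MulChar.one_apply_coe]
    have hωe : (ω ^ m) ^ e = 1 := by
      rw [← pow_mul, mul_comm, pow_mul, hω.pow_eq_one, one_pow]
    by_cases h : χ (u : ZMod P) = ω ^ m
    · rw [if_pos h, h, inv_mul_cancel₀ hωm]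
      simp
    · rw [if_neg h]
      set z : ℂ := (ω ^ m)⁻¹ * χ (u : ZMod P) with hzdef
      have hz1 : z ≠ 1 := by
        intro hz1
        apply h
        have : ω ^ m * z = ω ^ m * 1 := by rw [hz1]
        rw [hzdef, ← mul_assoc, mul_inv_cancel₀ hωm, one_mul, mul_one] at this
        exact this
      have hze : z ^ e = 1 := by
        rw [hzdef, mul_pow, inv_pow, hωe, hχe, inv_one, one_mul]
      have hg := mul_geom_sum z e
      rw [hze, sub_self] at hg
      rcases mul_eq_zero.1 hg with h1 | h1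
      · exact absurd (sub_eq_zero.1 h1) hz1
      · exact h1

/-- The number of pairs with prescribed value of `χ`, as a sum of character sums. -/
theorem count_eq {P : ℕ} [Fact P.Prime] {e : ℕ} (he : 0 < e) (χ : MulChar (ZMod P) ℂ)
    (ω : ℂ) (hχ : orderOf χ = e) (hω : IsPrimitiveRoot ω e) (m : ℕ) (X Y : Finset (ZMod P)) :
    ((e : ℂ) * ∑ x ∈ X, ((Y.filter fun y => χ (y - x) = ω ^ m).card : ℂ))
      = ∑ l ∈ range e, ((ω ^ m)⁻¹) ^ l * ∑ x ∈ X, ∑ y ∈ Y, (χ ^ l) (y - x) := by
  have h1 : ∀ x ∈ X, ((e : ℂ) * ((Y.filter fun y => χ (y - x) = ω ^ m).card : ℂ))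
      = ∑ y ∈ Y, ∑ l ∈ range e, ((ω ^ m)⁻¹) ^ l * (χ ^ l) (y - x) := by
    intro x _
    simp_rw [indicator_sum he χ ω hχ hω m]
    rw [Finset.card_filter, Nat.cast_sum, Finset.mul_sum]
    refine Finset.sum_congr rfl fun y _ => ?_
    split_ifs <;> simp
  rw [Finset.mul_sum, Finset.sum_congr rfl h1]
  rw [Finset.sum_congr rfl fun x _ => Finset.sum_comm, Finset.sum_comm]
  refine Finset.sum_congr rfl fun l _ => ?_
  rw [Finset.mul_sum]
  refine Finset.sum_congr rfl fun x _ => ?_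
  rw [Finset.mul_sum]

/-- Lower bound for the number of pairs with prescribed value of `χ`. -/
theorem count_ge (hmix : MixStatement) {P : ℕ} [Fact P.Prime] {e : ℕ} (he : 0 < e)
    (χ : MulChar (ZMod P) ℂ)
    (ω : ℂ) (hχ : orderOf χ = e) (hω : IsPrimitiveRoot ω e) (m : ℕ) (X Y : Finset (ZMod P)) :
    (X.card : ℝ) * Y.card - X.card - e * √((P : ℝ) * X.card * Y.card)
      ≤ (e : ℝ) * ∑ x ∈ X, ((Y.filter fun y => χ (y - x) = ω ^ m).card : ℝ) := by
  set R : ℝ := √((P : ℝ) * X.card * Y.card) with hR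
  set N : ℝ := ∑ x ∈ X, ((Y.filter fun y => χ (y - x) = ω ^ m).card : ℝ) with hN
  set T : ℝ := ∑ x ∈ X, ((Y.filter fun y => y ≠ x).card : ℝ) with hT
  have hR0 : 0 ≤ R := Real.sqrt_nonneg _
  -- the trivial character
  have hT0 : (∑ x ∈ X, ∑ y ∈ Y, (χ ^ 0) (y - x)) = (T : ℂ) := by
    rw [hT, Complex.ofReal_sum]
    refine Finset.sum_congr rfl fun x _ => ?_
    rw [Finset.card_filter]
    push_cast
    refine Finset.sum_congr rfl fun y _ => ?_
    rw [pow_zero]
    by_cases h : y = x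
    · subst h
      have h0 : (1 : MulChar (ZMod P) ℂ) 0 = 0 := MulChar.map_zero _
      simp [h0]
    · rw [MulChar.one_apply (isUnit_iff_ne_zero.2 (sub_ne_zero.2 h)), if_pos h]
      simp
  have hTge : (X.card : ℝ) * Y.card - X.card ≤ T := by
    have h1 : ∀ x ∈ X, (Y.card : ℝ) - 1 ≤ ((Y.filter fun y => y ≠ x).card : ℝ) := by
      intro x _
      have h2 : Y.card ≤ (Y.filter fun y => y ≠ x).card + 1 := by
        have h3 : Y ⊆ insert x (Y.filter fun y => y ≠ x) := by
          intro y hy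
          by_cases h : y = x
          · simp [h]
          · simp [h, hy]
        exact (Finset.card_le_card h3).trans (Finset.card_insert_le _ _)
      have h4 : (Y.card : ℝ) ≤ ((Y.filter fun y => y ≠ x).card : ℝ) + 1 := by exact_mod_cast h2
      linarith
    have h5 := Finset.sum_le_sum h1
    rw [Finset.sum_const, nsmul_eq_mul] at h5
    rw [hT]
    linarith
  -- the other characters
  have hother : ∀ l ∈ (range e).erase 0,
      ‖((ω ^ m)⁻¹) ^ l * ∑ x ∈ X, ∑ y ∈ Y, (χ ^ l) (y - x)‖ ≤ R := by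
    intro l hl
    rw [Finset.mem_erase, Finset.mem_range] at hl
    have hne : χ ^ l ≠ 1 := by
      intro h
      have h1 := orderOf_dvd_of_pow_eq_one h
      rw [hχ] at h1
      exact absurd (Nat.le_of_dvd (Nat.pos_of_ne_zero hl.1) h1) (not_le.2 hl.2)
    have h2 := hmix P (χ ^ l) hne X Y
    rw [norm_mul, norm_pow, norm_inv, norm_pow, hω.norm'_eq_one he.ne', one_pow, inv_one, one_pow,
      one_mul]
    exact Real.le_sqrt_of_sq_le h2
  have hkey : ‖((e : ℂ) * (N : ℂ)) - (T : ℂ)‖ ≤ e * R := by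
    have h1 : ((e : ℂ) * (N : ℂ)) - (T : ℂ)
        = ∑ l ∈ (range e).erase 0, ((ω ^ m)⁻¹) ^ l * ∑ x ∈ X, ∑ y ∈ Y, (χ ^ l) (y - x) := by
      have h2 := count_eq he χ ω hχ hω m X Y
      rw [← Finset.add_sum_erase _ _ (Finset.mem_range.2 he), hT0, pow_zero, one_mul] at h2
      have h3 : (N : ℂ) = ∑ x ∈ X, ((Y.filter fun y => χ (y - x) = ω ^ m).card : ℂ) := by
        rw [hN]
        push_cast
        rfl
      rw [h3, h2]
      ring
    rw [h1]
    refine (norm_sum_le _ _).trans ?_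
    refine (Finset.sum_le_sum hother).trans ?_
    rw [Finset.sum_const, nsmul_eq_mul]
    apply mul_le_mul_of_nonneg_right _ hR0
    have h4 : ((range e).erase 0).card ≤ e := by
      refine (Finset.card_le_card (Finset.erase_subset _ _)).trans ?_
      rw [Finset.card_range]
    exact_mod_cast h4
  have h5 : ‖((e : ℂ) * (N : ℂ)) - (T : ℂ)‖ = |(e : ℝ) * N - T| := by
    rw [← Real.norm_eq_abs, ← Complex.norm_real]
    push_cast
    rfl
  rw [h5] at hkey
  have h6 := (abs_le.1 hkey).1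
  linarith

/-- Few vertices have few neighbours of a given colour in a large set. -/
theorem bad_card_le (hmix : MixStatement) {P : ℕ} [Fact P.Prime] {e : ℕ} (he : 0 < e)
    (χ : MulChar (ZMod P) ℂ)
    (ω : ℂ) (hχ : orderOf χ = e) (hω : IsPrimitiveRoot ω e) (m : ℕ) (B Y : Finset (ZMod P))
    (β : ℝ) (hβ : 0 < β) (hY : β * P ≤ Y.card) (hY4 : (4 : ℝ) ≤ Y.card)
    (hB : ∀ x ∈ B, ((Y.filter fun y => χ (y - x) = ω ^ m).card : ℝ) ≤ Y.card / (2 * e)) :
    (B.card : ℝ) ≤ 16 * e ^ 2 / β := by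
  have hP : (0 : ℝ) < P := by exact_mod_cast (Fact.out : P.Prime).pos
  have he' : (0 : ℝ) < e := by exact_mod_cast he
  have h1 := count_ge hmix he χ ω hχ hω m B Y
  set R : ℝ := √((P : ℝ) * B.card * Y.card) with hR
  have hR0 : 0 ≤ R := Real.sqrt_nonneg _
  have hRsq : R ^ 2 = (P : ℝ) * B.card * Y.card := Real.sq_sqrt (by positivity)
  have h2 : ∑ x ∈ B, ((Y.filter fun y => χ (y - x) = ω ^ m).card : ℝ)
      ≤ B.card * (Y.card / (2 * e)) := by
    have := Finset.sum_le_sum hB
    rwa [Finset.sum_const, nsmul_eq_mul] at this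
  have h3 : (e : ℝ) * ∑ x ∈ B, ((Y.filter fun y => χ (y - x) = ω ^ m).card : ℝ)
      ≤ (B.card : ℝ) * Y.card / 2 := by
    have h4 := mul_le_mul_of_nonneg_left h2 he'.le
    have h5 : (e : ℝ) * (B.card * (Y.card / (2 * e))) = (B.card : ℝ) * Y.card / 2 := by
      field_simp
    rwa [h5] at h4
  have hb0 : (0 : ℝ) ≤ B.card := by positivity
  have h6 : (B.card : ℝ) ≤ B.card * Y.card / 4 := by nlinarith
  have h7 : (B.card : ℝ) * Y.card / 4 ≤ e * R := by linarith
  have hy0 : (0 : ℝ) < Y.card := by linarith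
  rcases hb0.eq_or_lt with hb | hb
  · rw [← hb]; positivity
  have h8 : ((B.card : ℝ) * Y.card / 4) ^ 2 ≤ (e * R) ^ 2 := by
    apply pow_le_pow_left₀ (by positivity) h7
  have h9 : (e * R) ^ 2 = (e : ℝ) ^ 2 * ((P : ℝ) * B.card * Y.card) := by
    rw [mul_pow, hRsq]
  rw [h9] at h8
  have h10 : (B.card : ℝ) * Y.card ≤ 16 * e ^ 2 * P := by
    have hby : (0 : ℝ) < B.card * Y.card := by positivity
    have h11 : ((B.card : ℝ) * Y.card) * ((B.card : ℝ) * Y.card)
        ≤ ((B.card : ℝ) * Y.card) * (16 * e ^ 2 * P) := by nlinarith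
    exact le_of_mul_le_mul_left h11 hby
  rw [le_div_iff₀ hβ]
  have h12 : (B.card : ℝ) * (β * P) ≤ B.card * Y.card :=
    mul_le_mul_of_nonneg_left hY hb0
  have h13 : (B.card : ℝ) * β * P ≤ 16 * e ^ 2 * P := by nlinarith
  exact le_of_mul_le_mul_right h13 hP

/-- EMB. -/
theorem emb (hmix : MixStatement) : EmbStatement := by
  intro e k he
  induction k with
  | zero =>
    intro β _
    refine ⟨0, ?_⟩
    intro P _ _ χ ω _ _ κ V _
    exact ⟨fun i => i.elim0, fun i => i.elim0, fun i => i.elim0⟩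
  | succ k ih =>
    intro β hβ
    have he' : (0 : ℝ) < e := by exact_mod_cast he
    obtain ⟨P₁, hP₁⟩ := ih (β / (2 * e)) (by positivity)
    obtain ⟨P₂, hP₂⟩ := exists_nat_gt (max (4 / β) (k * (16 * e ^ 2 / β) / β))
    refine ⟨max P₁ P₂, ?_⟩
    intro P hPfact hP χ ω hχ hω κ V hV
    have hPP₂ : (P₂ : ℝ) ≤ P := by exact_mod_cast (le_max_right _ _).trans hP
    have hP4 : (4 : ℝ) ≤ β * P := by
      have h1 : 4 / β < P := lt_of_lt_of_le (lt_of_le_of_lt (le_max_left _ _) hP₂) hPP₂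
      rw [div_lt_iff₀ hβ] at h1
      linarith
    have hPk : k * (16 * (e : ℝ) ^ 2 / β) < β * P := by
      have h1 : k * (16 * (e : ℝ) ^ 2 / β) / β < P :=
        lt_of_lt_of_le (lt_of_le_of_lt (le_max_right _ _) hP₂) hPP₂
      rw [div_lt_iff₀ hβ] at h1
      linarith
    classical
    -- the bad vertices
    set B : Fin k → Finset (ZMod P) := fun j => (V 0).filter fun x =>
      (((V j.succ).filter fun y => χ (y - x) = ω ^ κ 0 j.succ).card : ℝ)
        < (V j.succ).card / (2 * e) with hB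
    have hBcard : ∀ j, ((B j).card : ℝ) ≤ 16 * e ^ 2 / β := by
      intro j
      apply bad_card_le hmix he χ ω hχ hω (κ 0 j.succ) (B j) (V j.succ) β hβ (hV _)
        (hP4.trans (hV _))
      intro x hx
      exact (Finset.mem_filter.1 hx).2.le
    have hex : ∃ a ∈ V 0, ∀ j, a ∉ B j := by
      by_contra hcon
      push Not at hcon
      have hsub : V 0 ⊆ univ.biUnion B := by
        intro a ha
        obtain ⟨j, hj⟩ := hcon a ha
        exact Finset.mem_biUnion.2 ⟨j, Finset.mem_univ _, hj⟩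
      have h1 : ((V 0).card : ℝ) ≤ ∑ j : Fin k, ((B j).card : ℝ) := by
        have h2 := (Finset.card_le_card hsub).trans (Finset.card_biUnion_le)
        exact_mod_cast h2
      have h3 : ∑ j : Fin k, ((B j).card : ℝ) ≤ k * (16 * (e : ℝ) ^ 2 / β) := by
        have h4 := Finset.sum_le_sum fun j (_ : j ∈ (univ : Finset (Fin k))) => hBcard j
        rwa [Finset.sum_const, nsmul_eq_mul, Finset.card_univ, Fintype.card_fin] at h4
      have h5 := hV 0
      linarith
    obtain ⟨a, ha, haB⟩ := hex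
    -- the induction
    set V' : Fin k → Finset (ZMod P) := fun j =>
      (V j.succ).filter fun y => χ (y - a) = ω ^ κ 0 j.succ with hV'
    have hV'card : ∀ j, β / (2 * e) * P ≤ ((V' j).card : ℝ) := by
      intro j
      have h1 := haB j
      rw [hB, Finset.mem_filter, not_and, not_lt] at h1
      have h2 := h1 ha
      refine le_trans ?_ h2
      rw [div_mul_eq_mul_div]
      exact div_le_div_of_nonneg_right (hV _) (by positivity)
    obtain ⟨φ, hφ, hφ'⟩ := hP₁ P ((le_max_left _ _).trans hP) χ ω hχ hω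
      (fun i j => κ i.succ j.succ) V' hV'card
    refine ⟨Fin.cons a φ, ?_, ?_⟩
    · intro i
      refine Fin.cases ?_ (fun j => ?_) i
      · simpa using ha
      · simpa using (Finset.mem_filter.1 (hφ j)).1
    · intro i j
      refine Fin.cases ?_ (fun i' => ?_) i
      · refine Fin.cases ?_ (fun j' => ?_) j
        · intro h; exact absurd h (lt_irrefl _)
        · intro _
          simpa using (Finset.mem_filter.1 (hφ j')).2
      · refine Fin.cases ?_ (fun j' => ?_) j
        · intro h; exact absurd h (Fin.not_lt_zero _)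
        · intro h
          have := hφ' i' j' (Fin.succ_lt_succ_iff.1 h)
          simpa using this

end Pool.Agent.Lib.MP_b9b22b_co.Lin.H89
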